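import Pool.Agent.L0h23.ED.Stm

/-!
# The laws at two for the prime elements of `ℤ[(1 + √-7)/2]`
-/

set_option autoImplicit false
set_option linter.unusedSectionVars false

open scoped NumberTheorySymbols

namespace Pool.Agent.L0h61.EV

lemma jW_pos {w n : ℕ} {Y c : ℤ} (hn : (n : ℤ) = w * c + 2 * Y ^ 2) (ho : n % 2 = 1)
    (hw : w % 2 = 1) (hc : IsCoprime (w : ℤ) (n : ℤ)) :
    J((w : ℤ) | n) = if n % 4 = 1 then (if w % 8 = 1 ∨ w % 8 = 7 then 1 else -1) else
      (if w % 8 = 1 ∨ w % 8 = 3 then 1 else -1) := by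
  have hno : Odd n := Nat.odd_iff.2 ho
  have hwo : Odd w := Nat.odd_iff.2 hw
  have h2 : J((n : ℤ) | w) = J(2 * Y ^ 2 | w) := by
    apply jacobiSym.mod_left'
    rw [hn]
    apply Int.ModEq.symm
    rw [Int.modEq_iff_dvd]
    exact ⟨c, by ring⟩
  have h3 : J(Y ^ 2 | w) = 1 := by
    apply jacobiSym.sq_one'
    rw [Int.isCoprime_iff_gcd_eq_one.symm]
    rw [hn] at hc
    have h6 : IsCoprime (w : ℤ) (2 * Y ^ 2) := by
      have h7 : IsCoprime (w : ℤ) (2 * Y ^ 2 + w * c) := by rwa [add_comm]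
      exact IsCoprime.of_add_mul_left_right h7
    exact ((IsCoprime.pow_right_iff (by norm_num)).1 h6.of_mul_right_right).symm
  have h4 : J(2 | w) = if w % 8 = 1 ∨ w % 8 = 7 then 1 else -1 := by
    rw [jacobiSym.at_two hwo, ZMod.χ₈_nat_eq_if_mod_eight, if_neg (by omega)]
  rw [jacobiSym.quadratic_reciprocity hwo hno, h2, jacobiSym.mul_left, h3, mul_one, h4]
  by_cases a : n % 4 = 1
  · rw [if_pos a, Even.neg_one_pow, one_mul]
    apply Even.mul_left
    rw [Nat.even_iff]; omega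
  · rw [if_neg a]
    by_cases b : w % 4 = 1
    · rw [Even.neg_one_pow, one_mul]
      · have : (w % 8 = 1 ∨ w % 8 = 7) ↔ (w % 8 = 1 ∨ w % 8 = 3) := by omega
        simp only [this]
      · apply Even.mul_right
        rw [Nat.even_iff]; omega
    · rw [Odd.neg_one_pow]
      · by_cases d : w % 8 = 3
        · rw [if_neg (by omega), if_pos (by omega)]; norm_num
        · rw [if_pos (by omega), if_neg (by omega)]; norm_num
      · apply Odd.mul <;> rw [Nat.odd_iff] <;> omega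

/-- the symbol of a divisor of `n - 2 Y²` -/
theorem jW {n : ℕ} {W Y c : ℤ} (hn : (n : ℤ) = W * c + 2 * Y ^ 2) (ho : n % 2 = 1)
    (hw : W % 2 = 1) (hc : IsCoprime W (n : ℤ)) :
    J(W | n) = if n % 4 = 1 then (if W % 8 = 1 ∨ W % 8 = 7 then 1 else -1) else
      (if W % 8 = 1 ∨ W % 8 = 3 then 1 else -1) := by
  rcases le_or_gt 0 W with h | h
  · obtain ⟨w, hw'⟩ := Int.eq_ofNat_of_zero_le h
    subst hw'
    rw [jW_pos hn ho (by omega) hc]
    have e1 : (w % 8 = 1 ∨ w % 8 = 7) ↔ ((w : ℤ) % 8 = 1 ∨ (w : ℤ) % 8 = 7) := by omega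
    have e2 : (w % 8 = 1 ∨ w % 8 = 3) ↔ ((w : ℤ) % 8 = 1 ∨ (w : ℤ) % 8 = 3) := by omega
    simp only [e1, e2]
  · obtain ⟨w, hw'⟩ := Int.eq_ofNat_of_zero_le (show 0 ≤ -W by omega)
    have h1 : W = -(w : ℤ) := by omega
    subst h1
    have h2 := jW_pos (w := w) (n := n) (Y := Y) (c := -c) (by rw [hn]; ring) ho (by omega)
      ((IsCoprime.neg_left_iff _ _).1 hc)
    have h3 : J(-(w : ℤ) | n) = J(-1 | n) * J((w : ℤ) | n) := by
      rw [← jacobiSym.mul_left]
      congr 1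
      ring
    rw [h3, h2, jacobiSym.at_neg_one (Nat.odd_iff.2 ho), ZMod.χ₄_nat_eq_if_mod_four,
      if_neg (by omega)]
    by_cases a : n % 4 = 1
    · rw [if_pos a, if_pos a, if_pos a, one_mul]
      have e1 : (w % 8 = 1 ∨ w % 8 = 7) ↔ (-(w : ℤ) % 8 = 1 ∨ -(w : ℤ) % 8 = 7) := by omega
      simp only [e1]
    · rw [if_neg a, if_neg a, if_neg a]
      by_cases d : w % 8 = 1 ∨ w % 8 = 3
      · rw [if_pos d, if_neg (by omega)]; norm_num
      · rw [if_neg d, if_pos (by omega)]; norm_num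

open Pool.Agent.Y698 Pool.Agent.Y698.SG Pool.Agent.L0h4.TW Pool.Agent.L0h23.ED
open H667R3 Pool.Agent.W192.HK Pool.Agent.TH936.CM Pool.Agent.TH936.PU
open Pool.Agent.Y279.SG (sy_eq sy_cj dec nR_int cXY_cj unit_of_nR nR_dvd red qch_eq cj_mem)

/-! ### the reductions -/

/-- reduction modulo `𝔭 ^ 3` -/
noncomputable def ph : RR →+* ZMod 8 := ev (6 : ZMod 8) (by decide)

/-- reduction modulo `𝔭̄ ^ 3` -/
noncomputable def ps : RR →+* ZMod 8 := ev (3 : ZMod 8) (by decide)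

/-- reduction modulo `𝔭̄ ^ 2` -/
noncomputable def ps4 : RR →+* ZMod 4 := ev (3 : ZMod 4) (by decide)

/-- reduction modulo `𝔭̄` -/
noncomputable def ps2 : RR →+* ZMod 2 := ev (1 : ZMod 2) (by decide)

lemma ph_apply (x : RR) : ph x = ((cX x + cY x * 6 : ℤ) : ZMod 8) := by
  unfold ph; rw [ev_apply]; push_cast; rfl
lemma ps_apply (x : RR) : ps x = ((cX x + cY x * 3 : ℤ) : ZMod 8) := by
  unfold ps; rw [ev_apply]; push_cast; rfl
lemma ps4_apply (x : RR) : ps4 x = ((cX x + cY x * 3 : ℤ) : ZMod 4) := by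
  unfold ps4; rw [ev_apply]; push_cast; rfl
lemma ps2_apply (x : RR) : ps2 x = ((cX x + cY x : ℤ) : ZMod 2) := by
  unfold ps2; rw [ev_apply, mul_one]; push_cast; rfl

lemma ph_aR : ph aR = 6 := ev_aR _ _
lemma ps_aR : ps aR = 3 := ev_aR _ _
lemma ps4_aR : ps4 aR = 3 := ev_aR _ _
lemma ps2_aR : ps2 aR = 1 := ev_aR _ _

lemma aa : aR * (1 - aR) = 2 := by linear_combination -aR_sq

lemma bb3 : (1 - aR) ^ 3 = aR - 3 := by linear_combination -(aR - 2) * aR_sq

lemma dvd_ph (x : RR) : aR ^ 3 ∣ x ↔ ph x = 0 := by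
  constructor
  · rintro ⟨u, rfl⟩
    rw [map_mul, map_pow, ph_aR, show (6 : ZMod 8) ^ 3 = 0 by decide, zero_mul]
  · intro h
    rw [ph_apply] at h
    obtain ⟨k, hk⟩ := (ZMod.intCast_zmod_eq_zero_iff_dvd _ 8).1 h
    refine ⟨(1 - aR) ^ 3 * (k : RR) + (cY x : RR) * (2 - aR), ?_⟩
    have e := dec x
    have e2 : cX x = 8 * k - cY x * 6 := by push_cast at hk; linarith
    rw [e2] at e
    have h3 : aR ^ 3 * (1 - aR) ^ 3 = 8 := by rw [← mul_pow, aa]; norm_num
    have h4 : aR ^ 3 * (2 - aR) = aR - 6 := by linear_combination (-aR ^ 2 + aR + 3) * aR_sq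
    generalize cY x = Y at *
    rw [e]
    push_cast
    linear_combination -(k : RR) * h3 - (Y : RR) * h4

lemma dvd_ps (x : RR) : (1 - aR) ^ 3 ∣ x ↔ ps x = 0 := by
  constructor
  · rintro ⟨u, rfl⟩
    rw [map_mul, map_pow, map_sub, map_one, ps_aR, show (1 - 3 : ZMod 8) ^ 3 = 0 by decide,
      zero_mul]
  · intro h
    rw [ps_apply] at h
    obtain ⟨k, hk⟩ := (ZMod.intCast_zmod_eq_zero_iff_dvd _ 8).1 h
    refine ⟨aR ^ 3 * (k : RR) + (cY x : RR), ?_⟩
    have e := dec x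
    have e2 : cX x = 8 * k - cY x * 3 := by push_cast at hk; linarith
    rw [e2] at e
    have h3 : aR ^ 3 * (1 - aR) ^ 3 = 8 := by rw [← mul_pow, aa]; norm_num
    generalize cY x = Y at *
    rw [e]
    push_cast
    linear_combination -(k : RR) * h3 - (Y : RR) * bb3

lemma dvd_ps4 (x : RR) : (1 - aR) ^ 2 ∣ x ↔ ps4 x = 0 := by
  constructor
  · rintro ⟨u, rfl⟩
    rw [map_mul, map_pow, map_sub, map_one, ps4_aR, show (1 - 3 : ZMod 4) ^ 2 = 0 by decide,
      zero_mul]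
  · intro h
    rw [ps4_apply] at h
    obtain ⟨k, hk⟩ := (ZMod.intCast_zmod_eq_zero_iff_dvd _ 4).1 h
    refine ⟨aR ^ 2 * (k : RR) + (cY x : RR) * (1 - aR), ?_⟩
    have e := dec x
    have e2 : cX x = 4 * k - cY x * 3 := by push_cast at hk; linarith
    rw [e2] at e
    have h3 : aR ^ 2 * (1 - aR) ^ 2 = 4 := by rw [← mul_pow, aa]; norm_num
    generalize cY x = Y at *
    rw [e]
    push_cast
    linear_combination -(k : RR) * h3 - (Y : RR) * bb3

lemma dvd_ps2 (x : RR) : (1 - aR) ∣ x ↔ ps2 x = 0 := by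
  constructor
  · rintro ⟨u, rfl⟩
    rw [map_mul, map_sub, map_one, ps2_aR, sub_self, zero_mul]
  · intro h
    rw [ps2_apply] at h
    obtain ⟨k, hk⟩ := (ZMod.intCast_zmod_eq_zero_iff_dvd _ 2).1 h
    refine ⟨aR * (k : RR) - (cY x : RR), ?_⟩
    have e := dec x
    have e2 : cX x = 2 * k - cY x := by push_cast at hk; linarith
    rw [e2] at e
    generalize cY x = Y at *
    rw [e]
    push_cast
    linear_combination -(k : RR) * aa

lemma lam_eq (x : RR) : lam x = if ph x = 1 then 0 else 1 := by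
  unfold lam
  have : aR ^ 3 ∣ x - 1 ↔ ph x = 1 := by rw [dvd_ph, map_sub, map_one, sub_eq_zero]
  simp only [this]

lemma lab_eq (x : RR) : lab x = if ps x = 1 ∨ ps x = -1 then 0 else 1 := by
  unfold lab
  have h1 : (1 - aR) ^ 3 ∣ x - 1 ↔ ps x = 1 := by rw [dvd_ps, map_sub, map_one, sub_eq_zero]
  have h2 : (1 - aR) ^ 3 ∣ x + 1 ↔ ps x = -1 := by
    rw [dvd_ps, map_add, map_one, add_eq_zero_iff_eq_neg]
  simp only [h1, h2]

lemma ph_one_iff (x : RR) : ph x = 1 ↔ (cX x + cY x * 6) % 8 = 1 := by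
  rw [ph_apply, show (1 : ZMod 8) = ((1 : ℤ) : ZMod 8) by norm_num,
    ZMod.intCast_eq_intCast_iff]
  exact Iff.rfl

lemma ps_one_iff (x : RR) : ps x = 1 ↔ (cX x + cY x * 3) % 8 = 1 := by
  rw [ps_apply, show (1 : ZMod 8) = ((1 : ℤ) : ZMod 8) by norm_num,
    ZMod.intCast_eq_intCast_iff]
  exact Iff.rfl

lemma ps_neg_iff (x : RR) : ps x = -1 ↔ (cX x + cY x * 3) % 8 = 7 := by
  rw [ps_apply, show (-1 : ZMod 8) = ((7 : ℤ) : ZMod 8) by decide,
    ZMod.intCast_eq_intCast_iff]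
  exact Iff.rfl

lemma lam_int (x : RR) : lam x = if (cX x + cY x * 6) % 8 = 1 then 0 else 1 := by
  rw [lam_eq]; simp only [ph_one_iff]

lemma lab_int (x : RR) : lab x =
    if (cX x + cY x * 3) % 8 = 1 ∨ (cX x + cY x * 3) % 8 = 7 then 0 else 1 := by
  rw [lab_eq]; simp only [ps_one_iff, ps_neg_iff]

theorem lam_mul (x y : RR) (hx : N1 x) (hy : N1 y) : lam (x * y) = lam x + lam y := by
  have key : ∀ z : RR, N1 z → ph z = 1 ∨ ph z = 5 := by
    rintro z ⟨u, rfl⟩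
    rw [map_add, map_mul, map_pow, map_one, ph_aR]
    generalize ph u = t
    revert t
    decide
  rw [lam_eq, lam_eq, lam_eq, map_mul]
  rcases key x hx with h1 | h1 <;> rcases key y hy with h2 | h2 <;> rw [h1, h2] <;> decide

theorem lab_mul (x y : RR) (hx : ¬ (1 - aR) ∣ x) (hy : ¬ (1 - aR) ∣ y) :
    lab (x * y) = lab x + lab y := by
  have key : ∀ z : RR, ¬ (1 - aR) ∣ z → ps z = 1 ∨ ps z = 3 ∨ ps z = 5 ∨ ps z = 7 := by
    intro z hz
    rw [dvd_ps2, ps2_apply] at hz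
    have h1 : (cX z + cY z) % 2 = 1 := by
      rcases Int.emod_two_eq_zero_or_one (cX z + cY z) with h | h
      · exact absurd ((ZMod.intCast_zmod_eq_zero_iff_dvd _ 2).2 (Int.dvd_of_emod_eq_zero h)) hz
      · exact h
    have h2 : (cX z + cY z * 3) % 8 = 1 ∨ (cX z + cY z * 3) % 8 = 3 ∨
        (cX z + cY z * 3) % 8 = 5 ∨ (cX z + cY z * 3) % 8 = 7 := by omega
    rw [ps_apply]
    have h3 : ∀ s r : ℤ, s % 8 = r → 0 ≤ r → r < 8 → ((s : ℤ) : ZMod 8) = ((r : ℤ) : ZMod 8) := by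
      intro s r h h' h''
      rw [ZMod.intCast_eq_intCast_iff]
      show s % 8 = r % 8
      omega
    rcases h2 with h | h | h | h
    · exact Or.inl (by rw [h3 _ 1 h (by norm_num) (by norm_num)]; decide)
    · exact Or.inr (Or.inl (by rw [h3 _ 3 h (by norm_num) (by norm_num)]; decide))
    · exact Or.inr (Or.inr (Or.inl (by rw [h3 _ 5 h (by norm_num) (by norm_num)]; decide)))
    · exact Or.inr (Or.inr (Or.inr (by rw [h3 _ 7 h (by norm_num) (by norm_num)]; decide)))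
  rw [lab_eq, lab_eq, lab_eq, map_mul]
  rcases key x hx with h1 | h1 | h1 | h1 <;> rcases key y hy with h2 | h2 | h2 | h2 <;>
    rw [h1, h2] <;> decide

/-! ### primes of degree one -/

lemma D1.coords {x : RR} {p : ℕ} (h : D1 x p) : cX x % 4 = 1 ∧ cY x % 2 = 0 ∧
    (p : ℤ) % 8 = (1 + cY x) % 8 ∧ (p : ℤ) = cX x ^ 2 + cX x * cY x + 2 * cY x ^ 2 := by
  have hx2 : nR x % 2 = 1 := by rw [h.nR]; have := h.odd; omega
  have h1 := (N1_iff hx2).1 h.n1
  obtain ⟨-, h2⟩ := par hx2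
  have h4 : (p : ℤ) = cX x ^ 2 + cX x * cY x + 2 * cY x ^ 2 := by rw [← h.nR]; rfl
  refine ⟨h1, h2, ?_, h4⟩
  obtain ⟨a, ha⟩ : ∃ a : ℤ, cX x = 1 + 4 * a := ⟨(cX x - 1) / 4, by omega⟩
  obtain ⟨b, hb⟩ : ∃ b : ℤ, cY x = 2 * b := ⟨cY x / 2, by omega⟩
  rw [h4, ha, hb]
  have : (1 + 4 * a) ^ 2 + (1 + 4 * a) * (2 * b) + 2 * (2 * b) ^ 2 =
    1 + 2 * b + 8 * (a + 2 * a ^ 2 + a * b + b ^ 2) := by ring
  omega

lemma D1.syb {x : RR} {p : ℕ} (h : D1 x p) : lg (sy x (aR - 1)) = lab x := by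
  obtain ⟨hX, hY, hp8, hp⟩ := D1.coords h
  have hodd := h.odd
  have h1 := sy_deg1 h.pr h.nR (aR - 1)
  have c1 : cX (aR - 1) = -1 ∧ cY (aR - 1) = 1 := by
    rw [sub_eq_add_neg, (cXY_add _ _).1, (cXY_add _ _).2, (cXY_neg _).1, (cXY_neg _).2,
      cXY_aR.1, cXY_aR.2, cXY_one.1, cXY_one.2]
    norm_num
  rw [c1.1, c1.2, show -1 * cY x - cX x * 1 = -1 * (cX x + cY x) by ring, qch_mul] at h1
  have hYp : ¬ (p : ℤ) ∣ cY x := not_dvd_cY h.pr h.nR
  have hWp : ¬ (p : ℤ) ∣ cX x + cY x := by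
    rintro ⟨k, hk⟩
    apply hYp
    have h2 : (p : ℤ) ∣ 2 * cY x ^ 2 := ⟨1 - cX x * k, by
      linear_combination -hp - cX x * hk⟩
    have hpi : Prime (p : ℤ) := Nat.prime_iff_prime_int.1 h.pr
    rcases hpi.dvd_or_dvd h2 with h3 | h3
    · exfalso
      have : p ∣ 2 := by exact_mod_cast h3
      have := (Nat.prime_dvd_prime_iff_eq h.pr Nat.prime_two).1 this
      omega
    · exact hpi.dvd_of_dvd_pow h3
  have f1 := fJ (X := cX x) (Y := cY x) (n := p) hp hodd (cop_of_not h.pr hYp)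
    (fun h' => hYp (h' ▸ dvd_zero _))
  have f2 := jW (n := p) (W := cX x + cY x) (Y := cY x) (c := cX x) (by rw [hp]; ring) hodd
    (by omega) (cop_of_not h.pr hWp)
  have f3 : J(-1 | p) = if p % 4 = 1 then 1 else -1 := by
    rw [jacobiSym.at_neg_one (Nat.odd_iff.2 hodd), ZMod.χ₄_nat_eq_if_mod_four, if_neg (by omega)]
  have g1 : qch p (cY x) = ((J(cY x | p) : ℤ) : ℂ) := rfl
  have g2 : qch p (cX x + cY x) = ((J(cX x + cY x | p) : ℤ) : ℂ) := rfl
  have g3 : qch p (-1) = ((J(-1 | p) : ℤ) : ℂ) := rfl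
  rw [g1, g2, g3, f1, f2, f3, if_pos hX] at h1
  rw [lab_int]
  have e4 : (p % 4 = 1) ↔ cY x % 4 = 0 := by omega
  by_cases a : cY x % 4 = 0
  · rw [if_pos a, if_pos (e4.2 a), if_pos (e4.2 a)] at h1
    by_cases b : (cX x + cY x) % 8 = 1 ∨ (cX x + cY x) % 8 = 7
    · rw [if_pos b] at h1
      rw [if_pos (by omega)]
      have : sy x (aR - 1) = 1 := by push_cast at h1; linear_combination h1
      rw [this, lg_one]
    · rw [if_neg b] at h1
      rw [if_neg (by omega)]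
      have : sy x (aR - 1) = -1 := by push_cast at h1; linear_combination h1
      rw [this, lg_neg_one]
  · rw [if_neg a, if_neg (fun h' => a (e4.1 h')), if_neg (fun h' => a (e4.1 h'))] at h1
    by_cases b : (cX x + cY x) % 8 = 1 ∨ (cX x + cY x) % 8 = 3
    · rw [if_pos b] at h1
      rw [if_pos (by omega)]
      have : sy x (aR - 1) = 1 := by push_cast at h1; linear_combination -h1
      rw [this, lg_one]
    · rw [if_neg b] at h1
      rw [if_neg (by omega)]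
      have : sy x (aR - 1) = -1 := by push_cast at h1; linear_combination -h1
      rw [this, lg_neg_one]

lemma D1.sytwo {x : RR} {p : ℕ} (h : D1 x p) : lg (sy x 2) = lam x + lab x := by
  obtain ⟨hX, hY, hp8, -⟩ := D1.coords h
  have hodd := h.odd
  have h1 := sy_int h.pr h.nR 2
  have h2 : J(2 | p) = if p % 8 = 1 ∨ p % 8 = 7 then 1 else -1 := by
    rw [jacobiSym.at_two (Nat.odd_iff.2 hodd), ZMod.χ₈_nat_eq_if_mod_eight, if_neg (by omega)]
  have g : qch p 2 = ((J(2 | p) : ℤ) : ℂ) := rfl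
  rw [g, h2] at h1
  push_cast at h1
  rw [h1, lam_int, lab_int]
  obtain ⟨u, hu⟩ : ∃ u : ℤ, cX x = 1 + 4 * u := ⟨(cX x - 1) / 4, by omega⟩
  obtain ⟨t, ht⟩ : ∃ t : ℤ, cY x = 2 * t := ⟨cY x / 2, by omega⟩
  rw [ht] at hp8
  rw [hu, ht]
  by_cases a : p % 8 = 1 ∨ p % 8 = 7
  · rw [if_pos a, lg_one]
    by_cases b : (1 + 4 * u + 2 * t * 6) % 8 = 1
    · rw [if_pos b, if_pos (by omega)]; decide
    · rw [if_neg b, if_neg (by omega)]; decide
  · rw [if_neg a, lg_neg_one]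
    have ht4 : t % 4 = 1 ∨ t % 4 = 2 := by omega
    by_cases b : (1 + 4 * u + 2 * t * 6) % 8 = 1
    · have c : ¬ ((1 + 4 * u + 2 * t * 3) % 8 = 1 ∨ (1 + 4 * u + 2 * t * 3) % 8 = 7) := by
        rcases ht4 with h4 | h4 <;> omega
      rw [if_pos b, if_neg c]; decide
    · have c : (1 + 4 * u + 2 * t * 3) % 8 = 1 ∨ (1 + 4 * u + 2 * t * 3) % 8 = 7 := by
        rcases ht4 with h4 | h4 <;> rcases Int.emod_two_eq_zero_or_one u with h5 | h5 <;> omega
      rw [if_neg b, if_pos c]; decide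

/-! ### primes of degree two -/

lemma D2.coords {x : RR} {q : ℕ} (h : D2 x q) : cX x = sgz q * q ∧ cY x = 0 := by
  have h1 := cXY_sg q (q : RR)
  rw [(cXY_nat q).1, (cXY_nat q).2, mul_zero] at h1
  rw [h.eq]
  exact h1

lemma D2.syz {x : RR} {q : ℕ} (h : D2 x q) (z : RR) : sy x z = qch q (nR z) := by
  rw [sy_congr h.sp, sy_inertX h.inp]

lemma D2.syb {x : RR} {q : ℕ} (h : D2 x q) : lg (sy x (aR - 1)) = lab x := by
  obtain ⟨hX, hY⟩ := D2.coords h
  have hodd := h.inp.odd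
  have hm := sgz_mod hodd
  have c1 : nR (aR - 1) = 2 := by
    unfold nR
    rw [sub_eq_add_neg, (cXY_add _ _).1, (cXY_add _ _).2, (cXY_neg _).1, (cXY_neg _).2,
      cXY_aR.1, cXY_aR.2, cXY_one.1, cXY_one.2]
    norm_num
  rw [D2.syz h, c1, lab_int, hY, hX, zero_mul, add_zero]
  have h2 : J(2 | q) = if q % 8 = 1 ∨ q % 8 = 7 then 1 else -1 := by
    rw [jacobiSym.at_two (Nat.odd_iff.2 hodd), ZMod.χ₈_nat_eq_if_mod_eight, if_neg (by omega)]
  have g : qch q 2 = ((J(2 | q) : ℤ) : ℂ) := rfl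
  rw [g, h2]
  have e : (sgz q * (q : ℤ)) % 8 = 1 ∨ (sgz q * (q : ℤ)) % 8 = 7 ↔ (q % 8 = 1 ∨ q % 8 = 7) := by
    unfold sgz
    split_ifs <;> omega
  by_cases a : q % 8 = 1 ∨ q % 8 = 7
  · rw [if_pos a, if_pos (e.2 a)]
    push_cast
    rw [lg_one]
  · rw [if_neg a, if_neg (fun h' => a (e.1 h'))]
    push_cast
    rw [lg_neg_one]

lemma D2.sytwo {x : RR} {q : ℕ} (h : D2 x q) : lg (sy x 2) = lam x + lab x := by
  obtain ⟨hX, hY⟩ := D2.coords h
  have hodd := h.inp.odd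
  have hm := sgz_mod hodd
  have c1 : nR 2 = 4 := by
    have := nR_nat 2
    push_cast at this
    rw [this]
  rw [D2.syz h, c1, lab_int, lam_int, hY, hX]
  simp only [zero_mul, add_zero]
  have g : qch q 4 = 1 := by
    have : J(4 | q) = 1 := by
      rw [show (4 : ℤ) = 2 ^ 2 by norm_num]
      apply jacobiSym.sq_one'
      rw [Int.isCoprime_iff_gcd_eq_one.symm]
      exact ⟨-((q : ℤ) / 2), 1, by omega⟩
    unfold qch
    rw [this]
    norm_num
  rw [g, lg_one]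
  by_cases a : (sgz q * (q : ℤ)) % 8 = 1
  · rw [if_pos a, if_pos (Or.inl a)]; decide
  · rw [if_neg a, if_neg (by omega)]; decide

/-- **the laws at two** -/
theorem r2 : S_R2 where
  lam_mul := lam_mul
  lab_mul := lab_mul
  sy_b := fun _ _ h => h.elim D2.syb D1.syb
  sy_two := fun _ _ h => h.elim D2.sytwo D1.sytwo
  nt0 := by
    rintro x p (h | h)
    · obtain ⟨hX, hY⟩ := D2.coords h
      have hm := sgz_mod h.inp.odd
      rw [nt_D2 h, dvd_ps4, map_sub, map_one, sub_eq_zero, ps4_apply, hX, hY]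
      simp only [zero_mul, add_zero, iff_true]
      rw [show (1 : ZMod 4) = ((1 : ℤ) : ZMod 4) by norm_num, ZMod.intCast_eq_intCast_iff]
      exact hm
    · obtain ⟨hX, hY, hp8, -⟩ := D1.coords h
      have hodd := h.odd
      rw [nt_D1 h, dvd_ps4, map_sub, map_one, sub_eq_zero, ps4_apply,
        show (1 : ZMod 4) = ((1 : ℤ) : ZMod 4) by norm_num, ZMod.intCast_eq_intCast_iff]
      by_cases a : p % 4 = 3
      · rw [if_pos a]
        constructor
        · intro h'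
          have : (cX x + cY x * 3) % 4 = 1 % 4 := h'
          omega
        · intro h'
          exact absurd h' (by decide)
      · rw [if_neg a]
        simp only [iff_true]
        show (cX x + cY x * 3) % 4 = 1 % 4
        omega
  nt1 := by
    rintro x p (h | h)
    · obtain ⟨hX, hY⟩ := D2.coords h
      have hm := sgz_mod h.inp.odd
      rw [nt_D2 h, dvd_ps4, map_add, map_one, ps4_apply, hX, hY]
      constructor
      · intro h'
        exfalso
        rw [add_eq_zero_iff_eq_neg, show (-1 : ZMod 4) = ((3 : ℤ) : ZMod 4) by decide,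
          ZMod.intCast_eq_intCast_iff] at h'
        have : (sgz p * (p : ℤ) + 0 * 3) % 4 = 3 % 4 := h'
        omega
      · intro h'
        exact absurd h' (by decide)
    · obtain ⟨hX, hY, hp8, -⟩ := D1.coords h
      have hodd := h.odd
      rw [nt_D1 h, dvd_ps4, map_add, map_one, add_eq_zero_iff_eq_neg, ps4_apply,
        show (-1 : ZMod 4) = ((3 : ℤ) : ZMod 4) by decide, ZMod.intCast_eq_intCast_iff]
      by_cases a : p % 4 = 3
      · rw [if_pos a]
        simp only [iff_true]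
        show (cX x + cY x * 3) % 4 = 3 % 4
        omega
      · rw [if_neg a]
        constructor
        · intro h'
          have : (cX x + cY x * 3) % 4 = 3 % 4 := h'
          omega
        · intro h'
          exact absurd h' (by decide)

end Pool.Agent.L0h61.EV
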