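import Pool.Agent.L0h61.EV.Lin

/-!
# The determinant criteria are equivalent to the Selmer conditions
-/

set_option autoImplicit false
set_option linter.unusedSectionVars false

namespace Pool.Agent.L0h61.EV

open Pool.Agent.Y698 Pool.Agent.Y698.SG Pool.Agent.L0h4.TW Pool.Agent.L0h23.ED
open Pool.Agent.L0h1.EV

/-! ### the sums of the characters of order two modulo eight -/

/-- `0` for `±1` modulo eight -/
def u8 (n : ℕ) : ZMod 2 := if n % 8 = 1 ∨ n % 8 = 7 then 0 else 1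

lemma u8_mul {m n : ℕ} (hm : m % 2 = 1) (hn : n % 2 = 1) : u8 (m * n) = u8 m + u8 n := by
  unfold u8
  have h : m * n % 8 = (m % 8) * (n % 8) % 8 := Nat.mul_mod _ _ _
  have hm' : m % 8 = 1 ∨ m % 8 = 3 ∨ m % 8 = 5 ∨ m % 8 = 7 := by omega
  have hn' : n % 8 = 1 ∨ n % 8 = 3 ∨ n % 8 = 5 ∨ n % 8 = 7 := by omega
  rcases hm' with h1 | h1 | h1 | h1 <;> rcases hn' with h2 | h2 | h2 | h2 <;>
    rw [h1, h2] at h <;> rw [h, h1, h2] <;> decide

lemma u8_prod {R : Finset ℕ} (h : ∀ q ∈ R, q % 2 = 1) :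
    (∏ q ∈ R, q) % 2 = 1 ∧ u8 (∏ q ∈ R, q) = ∑ q ∈ R, u8 q := by
  classical
  induction R using Finset.induction_on with
  | empty => exact ⟨by simp, by simp [u8]⟩
  | insert q R hq ih =>
    have h1 := ih (fun r hr => h r (Finset.mem_insert_of_mem hr))
    have h2 := h q (Finset.mem_insert_self _ _)
    rw [Finset.prod_insert hq, Finset.sum_insert hq, u8_mul h2 h1.1, h1.2]
    exact ⟨by rw [Nat.mul_mod, h2, h1.1], rfl⟩

lemma sgz8 {q : ℕ} (h : q % 2 = 1) :
    ((sgz q * (q : ℤ)) % 8 = 1 ↔ (q % 8 = 1 ∨ q % 8 = 7)) ∧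
    ((sgz q * (q : ℤ)) % 8 = 1 ∨ (sgz q * (q : ℤ)) % 8 = 7 ↔ (q % 8 = 1 ∨ q % 8 = 7)) := by
  unfold sgz
  split_ifs <;> constructor <;> omega

lemma lam_sgq {q : ℕ} (h : q % 2 = 1) : lam (sg q * (q : RR)) = u8 q ∧
    lab (sg q * (q : RR)) = u8 q := by
  have h1 := cXY_sg q (q : RR)
  rw [(cXY_nat q).1, (cXY_nat q).2, mul_zero] at h1
  rw [lam_int, lab_int, h1.1, h1.2, zero_mul, add_zero, zero_mul, add_zero]
  unfold u8
  simp only [(sgz8 h).2]
  simp only [(sgz8 h).1, and_self]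

lemma not_bdvd {x : RR} (h : nR x % 2 = 1) : ¬ (1 - aR) ∣ x := by
  rw [dvd_ps2, ps2_apply]
  obtain ⟨h1, h2⟩ := par h
  intro h3
  obtain ⟨k, hk⟩ := (ZMod.intCast_zmod_eq_zero_iff_dvd _ 2).1 h3
  omega

section
variable {Q P : Finset ℕ} {ϖ : ℕ → RR}

lemma sum_ix (hd : Disjoint Q P) (f : ℕ × Bool → ZMod 2) :
    ∑ i ∈ ix Q P, f i = ∑ q ∈ Q, f (q, false) + ∑ p ∈ P, (f (p, false) + f (p, true)) := by
  have hd' : Disjoint ((Q ∪ P) ×ˢ ({false} : Finset Bool)) (P ×ˢ ({true} : Finset Bool)) := by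
    rw [Finset.disjoint_left]
    intro i hi hj
    rw [Finset.mem_product, Finset.mem_singleton] at hi hj
    rw [hi.2] at hj
    exact absurd hj.2 (by simp)
  unfold ix
  rw [Finset.sum_union hd', Finset.sum_product, Finset.sum_product]
  simp only [Finset.sum_singleton]
  rw [Finset.sum_union hd, Finset.sum_add_distrib, add_assoc]

theorem sum_lam (h : Dt Q P ϖ) : ∑ i ∈ ix Q P, lam (pfx Q ϖ i) = u8 (∏ q ∈ Q ∪ P, q) ∧
    ∑ i ∈ ix Q P, lab (pfx Q ϖ i) = u8 (∏ q ∈ Q ∪ P, q) := by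
  have hodd : ∀ q ∈ Q ∪ P, q % 2 = 1 := by
    intro q hq
    rcases Finset.mem_union.1 hq with hq | hq
    · exact (h.q q hq).odd
    · exact (h.p q hq).odd
  rw [(u8_prod hodd).2, Finset.sum_union h.dis, sum_ix h.dis, sum_ix h.dis]
  have eq : ∀ q ∈ Q, pfx Q ϖ (q, false) = sg q * (q : RR) := fun q hq => if_pos hq
  have ep : ∀ p ∈ P, D1 (pfx Q ϖ (p, false)) p ∧ D1 (pfx Q ϖ (p, true)) p ∧
      pfx Q ϖ (p, false) * pfx Q ϖ (p, true) = sg p * (p : RR) := by
    intro p hp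
    have e1 : pfx Q ϖ (p, false) = ϖ p := by
      unfold pfx
      rw [if_neg (fun h1 => h.disj h1 hp)]
      simp
    have e2 : pfx Q ϖ (p, true) = sg p * cj (ϖ p) := by
      unfold pfx
      rw [if_neg (fun h1 => h.disj h1 hp)]
      simp
    rw [e1, e2]
    refine ⟨h.d1 hp, (h.d1 hp).cj, ?_⟩
    have h1 := mul_cj (ϖ p)
    rw [(h.d1 hp).nR] at h1
    push_cast at h1
    linear_combination sg p * h1
  constructor
  · congr 1
    · exact Finset.sum_congr rfl fun q hq => by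
        rw [eq q hq, (lam_sgq (h.q q hq).odd).1]
    · refine Finset.sum_congr rfl fun p hp => ?_
      obtain ⟨h1, h2, h3⟩ := ep p hp
      rw [← lam_mul _ _ h1.n1 h2.n1, h3, (lam_sgq (h.p p hp).odd).1]
  · congr 1
    · exact Finset.sum_congr rfl fun q hq => by
        rw [eq q hq, (lam_sgq (h.q q hq).odd).2]
    · refine Finset.sum_congr rfl fun p hp => ?_
      obtain ⟨h1, h2, h3⟩ := ep p hp
      have o1 : nR (pfx Q ϖ (p, false)) % 2 = 1 := by rw [h1.nR]; have := h1.odd; omega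
      have o2 : nR (pfx Q ϖ (p, true)) % 2 = 1 := by rw [h2.nR]; have := h2.odd; omega
      rw [← lab_mul _ _ (not_bdvd o1) (not_bdvd o2), h3, (lam_sgq (h.p p hp).odd).2]

lemma lam_o : lam (-fR) = 1 := by
  rw [lam_int, (cXY_neg fR).1, (cXY_neg fR).2, cXY_fR.1, cXY_fR.2]
  norm_num

lemma lab_o : lab (-fR) = 1 := by
  rw [lab_int, (cXY_neg fR).1, (cXY_neg fR).2, cXY_fR.1, cXY_fR.2]
  norm_num

lemma nt_o : nt (-fR) = 1 := by
  rw [nt_D1 D1_seven]
  norm_num

lemma Dt.ne2 (h : Dt Q P ϖ) {i : ℕ × Bool} (hi : i ∈ ix Q P) : i.1 ≠ 2 := by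
  rw [mem_ix] at hi
  rcases hi with hi | hi | hi
  · have := (h.q _ hi.1).odd; omega
  · have := (h.p _ hi.1).odd; omega
  · have := (h.p _ hi.1).odd; omega

lemma Dt.recp (h : Dt Q P ϖ) : ∀ i ∈ ix Q P, ∀ j ∈ ix Q P, i ≠ j →
    mr (pfx Q ϖ) i j + mr (pfx Q ϖ) j i = kn (pfx Q ϖ) i * kn (pfx Q ϖ) j := by
  intro i hi j hj hij
  have := h.rec7 i (Finset.mem_insert_of_mem hi) j (Finset.mem_insert_of_mem hj) hij
  unfold mm at this
  rw [h.pf hi, h.pf hj] at this
  exact this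

/-- **the criterion for `D ≡ 3 mod 4` is the condition on the Selmer system** -/
theorem crit3_iff (h : Dt Q P ϖ) {D : ℕ} (hD : D = ∏ q ∈ Q ∪ P, q) (hD4 : D % 4 = 3) :
    Crit3 Q P ϖ ↔ NS3 Q P ϖ D := by
  have hb : ((2, false) : ℕ × Bool) ∉ ix Q P := fun h' => Dt.ne2 h h' rfl
  have hL : u8 D = 1 + (if D % 8 = 7 then 1 else 0) := by
    unfold u8
    by_cases h7 : D % 8 = 7
    · rw [if_pos (Or.inr h7), if_pos h7]; decide
    · rw [if_neg (by omega), if_neg h7]; decide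
  have hs := sum_lam h
  rw [← hD, hL] at hs
  have n2 : ∀ i ∈ ix Q P, i ≠ (2, false) := fun i hi h' => hb (h' ▸ hi)
  unfold Crit3 NS3
  refine sys3_iff h.ix7 hb (by decide) (lT := l3 Q ϖ) (mT := m3 Q ϖ) ?_ hs.1 hs.2 ?_ ?_ ?_ ?_
    (Dt.recp h) ?_ ?_ ?_ ?_ ?_ ?_
  · have := h.ntsum
    rw [← this]
    exact Finset.sum_congr rfl fun i hi => by rw [h.pf hi]; rfl
  · unfold l3
    rw [if_neg (by decide), pf7_o, lam_o]
  · exact if_pos rfl
  · intro i hi
    unfold l3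
    rw [if_neg (n2 i hi), h.pf hi]
    rfl
  · intro i hi j hj _
    unfold m3 mm
    rw [if_neg (n2 i hi), if_neg (n2 j hj), h.pf hi, h.pf hj]
    rfl
  · intro j hj
    unfold m3
    rw [if_pos rfl, h.pf hj]
    rfl
  · unfold m3
    rw [if_pos rfl, pf7_o, lab_o]
  · intro i hi
    unfold m3
    rw [if_neg (n2 i hi), if_pos rfl, h.pf hi]
    rfl
  · unfold m3
    rw [if_neg (by decide), if_pos rfl, pf7_o, nt_o]
  · intro j hj
    unfold m3 mm
    rw [if_neg (by decide), if_neg (n2 j hj), pf7_o, h.pf hj]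
    rfl
  · intro j hj
    have h1 := h.rec7 j (Finset.mem_insert_of_mem hj) (7, false) (Finset.mem_insert_self _ _)
      (fun h' => h.ix7 (h' ▸ hj))
    unfold m3
    rw [if_neg (n2 j hj), if_neg (by decide)]
    unfold mm at h1 ⊢
    rw [pf7_o, nt_o, mul_one, h.pf hj] at h1
    rw [pf7_o, h.pf hj]
    show lg (sy (-fR) (pfx Q ϖ j)) = lg (sy (pfx Q ϖ j) (-fR)) + nt (pfx Q ϖ j)
    linear_combination h1 - two_self (lg (sy (pfx Q ϖ j) (-fR)))

/-- **the criterion for `D = 2 M` is the condition on the Selmer system** -/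
theorem critE_iff (h : Dt Q P ϖ) {M : ℕ} (hM : M = ∏ q ∈ Q ∪ P, q) :
    CritE (if M % 4 = 3 then 1 else 0) Q P ϖ ↔ NSE Q P ϖ M := by
  have hodd : ∀ q ∈ Q ∪ P, q % 2 = 1 := by
    intro q hq
    rcases Finset.mem_union.1 hq with hq | hq
    · exact (h.q q hq).odd
    · exact (h.p q hq).odd
  have hMo : M % 2 = 1 := by rw [hM]; exact (u8_prod hodd).1
  have hb : ((2, false) : ℕ × Bool) ∉ ix Q P := fun h' => Dt.ne2 h h' rfl
  have hp : ((2, true) : ℕ × Bool) ∉ ix Q P := fun h' => Dt.ne2 h h' rfl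
  have hw : u8 M = if M % 8 = 3 ∨ M % 8 = 5 then 1 else 0 := by
    unfold u8
    by_cases h7 : M % 8 = 1 ∨ M % 8 = 7
    · rw [if_pos h7, if_neg (by omega)]
    · rw [if_neg h7, if_pos (by omega)]
  have hs := sum_lam h
  rw [← hM, hw] at hs
  have n2 : ∀ i ∈ ix Q P, i ≠ (2, false) := fun i hi h' => hb (h' ▸ hi)
  have n3 : ∀ i ∈ ix Q P, i ≠ (2, true) := fun i hi h' => hp (h' ▸ hi)
  unfold CritE NSE
  set nb : ZMod 2 := if M % 4 = 3 then 1 else 0 with hnb
  have eij : ∀ i ∈ ix Q P, ∀ j ∈ ix Q P, mE nb Q ϖ i j = mr (pfx Q ϖ) i j := by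
    intro i hi j hj
    unfold mE mm
    rw [if_neg (n2 i hi), if_neg (n3 i hi), if_neg (n2 j hj), if_neg (n3 j hj), h.pf hi, h.pf hj]
    rfl
  have ebj : ∀ j ∈ ix Q P, mE nb Q ϖ (2, false) j = kb (pfx Q ϖ) j := by
    intro j hj
    unfold mE
    rw [if_pos rfl, if_neg (n3 j hj), h.pf hj]
    rfl
  have eib : ∀ i ∈ ix Q P, mE nb Q ϖ i (2, false) = kb (pfx Q ϖ) i + nb * kn (pfx Q ϖ) i := by
    intro i hi
    unfold mE
    rw [if_neg (n2 i hi), if_neg (n3 i hi), if_pos rfl, h.pf hi]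
    rfl
  have eip : ∀ i ∈ ix Q P, mE nb Q ϖ i (2, true) = kl (pfx Q ϖ) i := by
    intro i hi
    unfold mE
    rw [if_neg (n2 i hi), if_neg (n3 i hi), if_neg (by decide), if_pos rfl, h.pf hi]
    rfl
  have epj : ∀ j ∈ ix Q P, mE nb Q ϖ (2, true) j = kl (pfx Q ϖ) j + nb * kn (pfx Q ϖ) j := by
    intro j hj
    unfold mE
    rw [if_neg (by decide), if_pos rfl, if_neg (n2 j hj), h.pf hj]
    rfl
  have ebp : mE nb Q ϖ (2, false) (2, true) = 1 := by
    unfold mE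
    rw [if_pos rfl, if_pos rfl]
  have epb : mE nb Q ϖ (2, true) (2, false) = 1 + nb := by
    unfold mE
    rw [if_neg (by decide), if_pos rfl, if_pos rfl]
  have eop : mE nb Q ϖ (7, false) (2, true) = 1 := by
    unfold mE
    rw [if_neg (by decide), if_neg (by decide), if_neg (by decide), if_pos rfl, pf7_o, lam_o]
  have epo : mE nb Q ϖ (2, true) (7, false) = 1 + nb := by
    unfold mE
    rw [if_neg (by decide), if_pos rfl, if_neg (by decide), pf7_o, lam_o, nt_o, mul_one]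
  have eob : mE nb Q ϖ (7, false) (2, false) = 1 + nb := by
    unfold mE
    rw [if_neg (by decide), if_neg (by decide), if_pos rfl, pf7_o, lab_o, nt_o, mul_one]
  have ebo : mE nb Q ϖ (2, false) (7, false) = 1 := by
    unfold mE
    rw [if_pos rfl, if_neg (by decide), pf7_o, lab_o]
  have eoj : ∀ j ∈ ix Q P, mE nb Q ϖ (7, false) j = k7 (pfx Q ϖ) j := by
    intro j hj
    unfold mE mm
    rw [if_neg (by decide), if_neg (by decide), if_neg (n2 j hj), if_neg (n3 j hj), pf7_o,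
      h.pf hj]
    rfl
  have ejo : ∀ j ∈ ix Q P, mE nb Q ϖ j (7, false) = k7 (pfx Q ϖ) j + kn (pfx Q ϖ) j := by
    intro j hj
    have h1 := h.rec7 j (Finset.mem_insert_of_mem hj) (7, false) (Finset.mem_insert_self _ _)
      (fun h' => h.ix7 (h' ▸ hj))
    unfold mE
    rw [if_neg (n2 j hj), if_neg (n3 j hj), if_neg (by decide), if_neg (by decide)]
    unfold mm at h1 ⊢
    rw [pf7_o, nt_o, mul_one, h.pf hj] at h1
    rw [pf7_o, h.pf hj]
    show lg (sy (-fR) (pfx Q ϖ j)) = lg (sy (pfx Q ϖ j) (-fR)) + nt (pfx Q ϖ j)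
    linear_combination h1 - two_self (lg (sy (pfx Q ϖ j) (-fR)))
  have no : nE nb Q ϖ (7, false) = 1 := by
    unfold nE
    rw [if_neg (by decide), pf7_o, nt_o]
  have nbb : nE nb Q ϖ (2, false) = nb := if_pos rfl
  have npp : nE nb Q ϖ (2, true) = nb := if_pos rfl
  have nI : ∀ i ∈ ix Q P, nE nb Q ϖ i = kn (pfx Q ϖ) i := by
    intro i hi
    unfold nE
    rw [if_neg (Dt.ne2 h hi), h.pf hi]
    rfl
  have hsq : nb * nb = nb := sq_self nb
  refine sysE_iff h.ix7 hb hp (by decide) (by decide) (by decide) ?_ no nbb npp nI ?_ hs.2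
    (fun i hi j hj _ => eij i hi j hj) ebj eib eip epj ebp epb eop eob eoj
  · intro i hi j hj hij
    rw [Finset.mem_insert, Finset.mem_insert, Finset.mem_insert] at hi hj
    rcases hi with rfl | rfl | rfl | hi <;> rcases hj with rfl | rfl | rfl | hj
    · exact absurd rfl hij
    · rw [epb, ebp, npp, nbb, hsq]; linear_combination two_self 1
    · rw [epo, eop, npp, no]; linear_combination two_self 1
    · rw [epj j hj, eip j hj, npp, nI j hj]; linear_combination two_self (kl (pfx Q ϖ) j)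
    · rw [ebp, epb, nbb, npp, hsq]; linear_combination two_self 1
    · exact absurd rfl hij
    · rw [ebo, eob, nbb, no]; linear_combination two_self 1
    · rw [ebj j hj, eib j hj, nbb, nI j hj]; linear_combination two_self (kb (pfx Q ϖ) j)
    · rw [eop, epo, no, npp]; linear_combination two_self 1
    · rw [eob, ebo, no, nbb]; linear_combination two_self 1
    · exact absurd rfl hij
    · rw [eoj j hj, ejo j hj, no, nI j hj]; linear_combination two_self (k7 (pfx Q ϖ) j)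
    · rw [eip i hi, epj i hi, nI i hi, npp]; linear_combination two_self (kl (pfx Q ϖ) i)
    · rw [eib i hi, ebj i hi, nI i hi, nbb]; linear_combination two_self (kb (pfx Q ϖ) i)
    · rw [ejo i hi, eoj i hi, nI i hi, no]; linear_combination two_self (k7 (pfx Q ϖ) i)
    · rw [eij i hi j hj, eij j hj i hi, nI i hi, nI j hj]
      exact Dt.recp h i hi j hj hij
  · have := h.ntsum
    rw [← this]
    exact Finset.sum_congr rfl fun i hi => by rw [h.pf hi]; rfl

end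

end Pool.Agent.L0h61.EV
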