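import Pool.Agent.L0h1.EV.Abs
import Pool.Agent.L0h61.EV.R2

/-!
# The linear algebra: the determinant criteria and the Selmer systems
-/

set_option autoImplicit false
set_option linter.unusedSectionVars false

namespace Pool.Agent.L0h61.EV

open Pool.Agent.Y698.SG Pool.Agent.L0h4.TW Pool.Agent.L0h23.ED Pool.Agent.L0h1.EV

variable {ι : Type} [DecidableEq ι]

/-- the transposed Laplace matrix with the diagonal of the columns -/
def lapT (m : ι → ι → ZMod 2) (S : Finset ι) (x : ι → ZMod 2) (j : ι) : ZMod 2 :=
  ∑ i ∈ S, m i j * (x j + x i)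

lemma lapT_add (m : ι → ι → ZMod 2) (S : Finset ι) (x : ι → ZMod 2) (t : ZMod 2) (j : ι) :
    lapT m S (fun i => x i + t) j = lapT m S x j := by
  unfold lapT
  refine Finset.sum_congr rfl fun i _ => ?_
  linear_combination m i j * two_self t

/-- the determinant with a root of odd type -/
theorem gd_rootT {n : ι → ZMod 2} {m : ι → ι → ZMod 2} {A : Finset ι} {o : ι} (ho : o ∉ A)
    (h : Recip n m (insert o A)) (hno : n o = 1) (hn : ∑ k ∈ A, n k = 0) :
    gd n m (insert o A) ≠ 0 ↔ ∀ x : ι → ZMod 2, x o = 0 →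
      (∀ j ∈ A, lapT m (insert o A) x j = 0) → ∀ i ∈ A, x i = 0 := by
  rw [gd_root ho h hno hn, ← gd_transp (h.mono (Finset.subset_insert o A)) hn, gd_ker]
  have key : ∀ x : ι → ZMod 2, x o = 0 → ∀ j ∈ A, lapT m (insert o A) x j =
      (m j o + n j) * x j + ∑ i ∈ A, m i j * (x j + x i) := by
    intro x hx j hj
    unfold lapT
    rw [Finset.sum_insert ho, hx, add_zero]
    congr 2
    have h1 := h j (Finset.mem_insert_of_mem hj) o (Finset.mem_insert_self _ _)
      (fun h' => ho (h' ▸ hj))
    rw [hno, mul_one] at h1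
    rw [← h1]
    linear_combination -two_self (m j o)
  constructor
  · intro hk x hx0 hx
    exact hk x (fun i hi => by rw [← key x hx0 i hi]; exact hx i hi)
  · intro hk x hx
    have h1 := hk (fun i => if i = o then 0 else x i) (if_pos rfl) (fun j hj => by
      rw [key _ (if_pos rfl) j hj]
      have e : ∀ i ∈ A, (if i = o then (0 : ZMod 2) else x i) = x i :=
        fun i hi => if_neg (ne_of_mem_of_not_mem hi ho)
      refine Eq.trans ?_ (hx j hj)
      rw [e j hj]
      congr 1
      exact Finset.sum_congr rfl fun i hi => by rw [e i hi])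
    intro i hi
    have h2 := h1 i hi
    rwa [if_neg (ne_of_mem_of_not_mem hi ho)] at h2

/-- **the criterion for `D = 2 M`** -/
theorem sysE_iff {I : Finset ι} {o b p : ι} (ho : o ∉ I) (hb : b ∉ I) (hp : p ∉ I)
    (hob : o ≠ b) (hop : o ≠ p) (hbp : b ≠ p) {nT n l lb m7 : ι → ZMod 2}
    {mT m : ι → ι → ZMod 2} {nb w : ZMod 2}
    (hR : Recip nT mT (insert p (insert b (insert o I)))) (hno : nT o = 1) (hnb : nT b = nb)
    (hnp : nT p = nb) (hnI : ∀ i ∈ I, nT i = n i) (hn : ∑ i ∈ I, n i = 0)
    (hlb : ∑ i ∈ I, lb i = w) (eij : ∀ i ∈ I, ∀ j ∈ I, i ≠ j → mT i j = m i j)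
    (ebj : ∀ j ∈ I, mT b j = lb j) (eib : ∀ i ∈ I, mT i b = lb i + nb * n i)
    (eip : ∀ i ∈ I, mT i p = l i) (epj : ∀ j ∈ I, mT p j = l j + nb * n j)
    (ebp : mT b p = 1) (epb : mT p b = 1 + nb) (eop : mT o p = 1) (eob : mT o b = 1 + nb)
    (eoj : ∀ j ∈ I, mT o j = m7 j) :
    gd nT mT (insert p (insert b (insert o I))) ≠ 0 ↔ SysE I nb w n l lb m7 m := by
  set A : Finset ι := insert p (insert b I) with hA
  have hoA : o ∉ A := by
    rw [hA, Finset.mem_insert, Finset.mem_insert]
    rintro (h | h | h)
    · exact hop h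
    · exact hob h
    · exact ho h
  have hT : insert p (insert b (insert o I)) = insert o A := by
    rw [hA, Finset.insert_comm b o, Finset.insert_comm p o]
  have hpb : p ∉ insert b I := by
    rw [Finset.mem_insert]
    rintro (h | h)
    · exact hbp h.symm
    · exact hp h
  have hbI : b ∉ I := hb
  rw [hT] at hR ⊢
  rw [gd_rootT hoA hR hno (by
    rw [hA, Finset.sum_insert hpb, Finset.sum_insert hbI, hnp, hnb,
      Finset.sum_congr rfl hnI, hn, add_zero]
    exact two_self nb)]
  -- the three equations for a vector with `y p = 0`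
  have q1 : ∀ y : ι → ZMod 2, y p = 0 → lapT mT (insert o A) y p =
      y b + y o + ∑ i ∈ I, l i * y i := by
    intro y hy
    unfold lapT
    rw [hA, Finset.sum_insert (by rw [← hA]; exact hoA), Finset.sum_insert hpb,
      Finset.sum_insert hbI, hy, eop, ebp]
    have : ∑ i ∈ I, mT i p * (0 + y i) = ∑ i ∈ I, l i * y i :=
      Finset.sum_congr rfl fun i hi => by rw [eip i hi, zero_add]
    rw [this]
    ring
  have q2 : ∀ y : ι → ZMod 2, y p = 0 → lapT mT (insert o A) y b =
      w * y b + y o * (1 + nb) + ∑ i ∈ I, (lb i + nb * n i) * y i := by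
    intro y hy
    unfold lapT
    rw [hA, Finset.sum_insert (by rw [← hA]; exact hoA), Finset.sum_insert hpb,
      Finset.sum_insert hbI, hy, eob, epb]
    have h1 : ∑ i ∈ I, mT i b * (y b + y i) =
        ∑ i ∈ I, (lb i * y b + (nb * y b) * n i + (lb i + nb * n i) * y i) :=
      Finset.sum_congr rfl fun i hi => by rw [eib i hi]; ring
    rw [h1, Finset.sum_add_distrib, Finset.sum_add_distrib, ← Finset.sum_mul, ← Finset.mul_sum,
      hlb, hn]
    linear_combination (1 + nb) * two_self (y b) + mT b b * two_self (y b)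
  have q3 : ∀ y : ι → ZMod 2, y p = 0 → ∀ j ∈ I, lapT mT (insert o A) y j =
      y b * lb j + y o * m7 j + ∑ i ∈ I.erase j, m i j * y i +
      y j * (l j + lb j + nb * n j + m7 j + ∑ i ∈ I.erase j, m i j) := by
    intro y hy j hj
    unfold lapT
    rw [hA, Finset.sum_insert (by rw [← hA]; exact hoA), Finset.sum_insert hpb,
      Finset.sum_insert hbI, hy, eoj j hj, epj j hj, ebj j hj, ← Finset.add_sum_erase I _ hj]
    have h1 : ∑ i ∈ I.erase j, mT i j * (y j + y i) =
        ∑ i ∈ I.erase j, (m i j * y i + y j * m i j) :=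
      Finset.sum_congr rfl fun i hi => by
        rw [eij i (Finset.mem_of_mem_erase hi) j hj (Finset.ne_of_mem_erase hi)]; ring
    rw [h1, Finset.sum_add_distrib, ← Finset.mul_sum]
    linear_combination mT j j * two_self (y j)
  constructor
  · intro hk z e x h1 h2 h3
    -- the vector
    set y : ι → ZMod 2 := fun i => if i = p then 0 else if i = b then z else if i = o then e
      else x i with hy
    have yp : y p = 0 := if_pos rfl
    have yb : y b = z := (if_neg hbp).trans (if_pos rfl)
    have yo : y o = e := (if_neg hop).trans ((if_neg hob).trans (if_pos rfl))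
    have yi : ∀ i ∈ I, y i = x i := by
      intro i hi
      exact (if_neg (ne_of_mem_of_not_mem hi hp)).trans ((if_neg (ne_of_mem_of_not_mem hi hb)).trans
        (if_neg (ne_of_mem_of_not_mem hi ho)))
    have s1 : lapT mT (insert o A) y p = 0 := by
      rw [q1 y yp, yb, yo, Finset.sum_congr rfl (fun i hi => by rw [yi i hi])]
      exact h1
    have s2 : lapT mT (insert o A) y b = 0 := by
      rw [q2 y yp, yb, yo, Finset.sum_congr rfl (fun i hi => by rw [yi i hi])]
      exact h2
    have s3 : ∀ j ∈ I, lapT mT (insert o A) y j = 0 := by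
      intro j hj
      rw [q3 y yp j hj, yb, yo, yi j hj, Finset.sum_congr rfl
        (fun i hi => by rw [yi i (Finset.mem_of_mem_erase hi)])]
      exact h3 j hj
    have h4 := hk (fun i => y i + y o) (two_self _) (fun j hj => by
      rw [lapT_add]
      rw [hA, Finset.mem_insert, Finset.mem_insert] at hj
      rcases hj with rfl | rfl | hj
      · exact s1
      · exact s2
      · exact s3 j hj)
    have h5 := h4 p (Finset.mem_insert_self _ _)
    rw [yp, zero_add, yo] at h5
    have h6 := h4 b (Finset.mem_insert_of_mem (Finset.mem_insert_self _ _))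
    rw [yb, yo, h5, add_zero] at h6
    refine ⟨h6, h5, fun i hi => ?_⟩
    have h7 := h4 i (Finset.mem_insert_of_mem (Finset.mem_insert_of_mem hi))
    rw [yi i hi, yo, h5, add_zero] at h7
    exact h7
  · intro hs x hxo hx
    set y : ι → ZMod 2 := fun i => x i + x p with hy
    have yp : y p = 0 := two_self _
    have e : ∀ j, lapT mT (insert o A) y j = lapT mT (insert o A) x j := fun j => lapT_add _ _ _ _ _
    have h1 := q1 y yp
    have h2 := q2 y yp
    rw [e, hx p (Finset.mem_insert_self _ _)] at h1
    rw [e, hx b (Finset.mem_insert_of_mem (Finset.mem_insert_self _ _))] at h2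
    have h3 := hs (y b) (y o) y h1.symm h2.symm (fun j hj => by
      rw [← q3 y yp j hj, e]
      exact hx j (Finset.mem_insert_of_mem (Finset.mem_insert_of_mem hj)))
    have h4 : x p = 0 := by
      have h6 : x o + x p = 0 := h3.2.1
      rwa [hxo, zero_add] at h6
    have h5 : ∀ i, y i = x i := fun i => by
      show x i + x p = x i
      rw [h4, add_zero]
    intro i hi
    rw [hA, Finset.mem_insert, Finset.mem_insert] at hi
    rcases hi with rfl | rfl | hi
    · exact h4
    · rw [← h5]; exact h3.1
    · rw [← h5]; exact h3.2.2 i hi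

/-! ### the sum of the cofactors -/

/-- the transposed Laplace matrix with the diagonal of the rows -/
def LT (m : ι → ι → ZMod 2) (S : Finset ι) (w : ι → ZMod 2) (j : ι) : ZMod 2 :=
  ∑ i ∈ S, (m i j * w i + m j i * w j)

lemma det_row {S : Finset ι} (hS : S.Nonempty) (M : Matrix S S (ZMod 2))
    (h : ∀ i, ∑ j, M i j = 0) : M.det = 0 := by
  obtain ⟨k, hk⟩ := hS
  refine Matrix.exists_mulVec_eq_zero_iff.1 ⟨fun _ => 1, fun h0 => ?_, ?_⟩
  · exact one_ne_zero (congrFun h0 ⟨k, hk⟩)
  · funext i
    show ∑ j, M i j * 1 = 0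
    simp only [mul_one]
    exact h i

lemma gm_row (m : ι → ι → ZMod 2) (S : Finset ι) (i : S) : ∑ j, gm 0 m S i j = 0 := by
  have h1 := gm_mulVec 0 m S (fun _ => 1) i
  have h2 : (gm 0 m S).mulVec (fun _ => 1) i = ∑ j, gm 0 m S i j := by
    show ∑ j, gm 0 m S i j * 1 = _
    simp only [mul_one]
  rw [← h2, h1]
  simp only [Pi.zero_apply, zero_mul, zero_add]
  exact Finset.sum_eq_zero fun j _ => by rw [two_self, mul_zero]

lemma adj_eq {m : ι → ι → ZMod 2} {S : Finset ι} (i k : S) :
    (gm 0 m S).adjugate i i = (gm 0 m S).adjugate k i := by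
  rw [Matrix.adjugate_apply, Matrix.adjugate_apply]
  have h1 := Matrix.det_updateRow_add (gm 0 m S) i (Pi.single i 1) (Pi.single k 1)
  have h2 : ((gm 0 m S).updateRow i (Pi.single i 1 + Pi.single k 1)).det = 0 := by
    apply det_row ⟨(i : ι), i.2⟩
    intro j
    by_cases h : j = i
    · subst h
      rw [Finset.sum_congr rfl (fun t _ => by rw [Matrix.updateRow_self])]
      simp only [Pi.add_apply]
      rw [Finset.sum_add_distrib]
      simp only [Finset.sum_pi_single']
      simp only [Finset.mem_univ, if_true]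
      exact two_self 1
    · rw [Finset.sum_congr rfl (fun t _ => by rw [Matrix.updateRow_ne h])]
      exact gm_row m S j
  rw [h2] at h1
  linear_combination -h1 - two_self (((gm 0 m S).updateRow i (Pi.single k 1)).det)

lemma gd_delta {m : ι → ι → ZMod 2} {S : Finset ι} (i k : S) :
    gd (fun j => if j = (i : ι) then 1 else 0) m S = (gm 0 m S).adjugate k i := by
  rw [← adj_eq i k, gd_gm, Matrix.adjugate_apply]
  have h1 : gm (fun j => if j = (i : ι) then 1 else 0) m S =
      (gm 0 m S).updateRow i (gm 0 m S i + Pi.single i 1) := by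
    ext a c
    by_cases h : a = i
    · subst h
      rw [Matrix.updateRow_self, Pi.add_apply]
      unfold gm
      rw [Matrix.of_apply, Matrix.of_apply]
      by_cases h2 : a = c
      · subst h2
        have e : (fun j : ι => if j = (a : ι) then (1 : ZMod 2) else 0) a = 1 := if_pos rfl
        rw [if_pos rfl, if_pos rfl, Pi.single_eq_same, e, Pi.zero_apply]
        ring
      · rw [if_neg h2, if_neg h2, Pi.single_eq_of_ne (Ne.symm h2), add_zero]
    · rw [Matrix.updateRow_ne h]
      unfold gm
      have e : (fun j : ι => if j = (i : ι) then (1 : ZMod 2) else 0) a = 0 :=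
        if_neg (fun h' => h (Subtype.ext h'))
      rw [Matrix.of_apply, Matrix.of_apply, e, Pi.zero_apply]
  rw [h1, Matrix.det_updateRow_add, Matrix.updateRow_eq_self,
    det_row ⟨(i : ι), i.2⟩ _ (gm_row m S), zero_add]

lemma kp_det (l : ι → ZMod 2) (m : ι → ι → ZMod 2) {S : Finset ι} (k : S) :
    kp l m S = ((gm 0 m S).updateCol k (fun i => l i)).det := by
  unfold kp
  rw [← Finset.sum_coe_sort S (fun i => l i * gd (fun j => if j = i then 1 else 0) m S)]
  have h1 : ∀ i : S, l i * gd (fun j => if j = (i : ι) then 1 else 0) m S =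
      (gm 0 m S).adjugate k i * l i := fun i => by rw [gd_delta i k, mul_comm]
  rw [Finset.sum_congr rfl (fun i _ => h1 i)]
  have h2 := congrFun (Matrix.cramer_eq_adjugate_mulVec (gm 0 m S) (fun i => l i)) k
  rw [Matrix.cramer_apply] at h2
  rw [h2]
  rfl

/-- **the sum of the cofactors and the kernel** -/
theorem kp_ker (l : ι → ZMod 2) (m : ι → ι → ZMod 2) {S : Finset ι} {k : ι} (hk : k ∈ S) :
    kp l m S ≠ 0 ↔ ∀ w : ι → ZMod 2, (∀ j ∈ S, j ≠ k → LT m S w j = 0) →
      ∑ i ∈ S, l i * w i = 0 → ∀ i ∈ S, w i = 0 := by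
  rw [kp_det l m ⟨k, hk⟩]
  set N := (gm 0 m S).updateCol ⟨k, hk⟩ (fun i => l i) with hN
  have hv : ∀ (w : ι → ZMod 2) (j : S), Matrix.vecMul (fun i : S => w i) N j =
      if (j : ι) = k then ∑ i ∈ S, l i * w i else LT m S w j := by
    intro w j
    show ∑ i : S, w i * N i j = _
    by_cases h : (j : ι) = k
    · rw [if_pos h]
      have h' : j = ⟨k, hk⟩ := Subtype.ext h
      rw [h', ← Finset.sum_coe_sort S (fun i => l i * w i)]
      refine Finset.sum_congr rfl fun i _ => ?_
      rw [hN, Matrix.updateCol_self, mul_comm]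
    · rw [if_neg h]
      have h' : j ≠ ⟨k, hk⟩ := fun e => h (congrArg Subtype.val e)
      unfold LT
      have h1 : ∀ i : S, w i * N i j = w i * (if (i : ι) = j then ∑ t ∈ S.erase j, m j t
          else m i j) := by
        intro i
        rw [hN, Matrix.updateCol_ne h']
        unfold gm
        rw [Matrix.of_apply]
        by_cases h2 : i = j
        · subst h2
          rw [if_pos rfl, if_pos rfl, Pi.zero_apply, zero_add]
        · rw [if_neg h2, if_neg (fun e => h2 (Subtype.ext e))]
      rw [Finset.sum_congr rfl (fun i _ => h1 i),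
        Finset.sum_coe_sort S (fun i => w i * (if i = (j : ι) then ∑ t ∈ S.erase j, m j t
          else m i j)), ← Finset.add_sum_erase S _ j.2, if_pos rfl,
        ← Finset.add_sum_erase S (fun i => m i j * w i + m j i * w j) j.2, two_self, zero_add,
        Finset.sum_add_distrib, ← Finset.sum_mul, add_comm, mul_comm (w j)]
      congr 1
      refine Finset.sum_congr rfl fun i hi => ?_
      rw [if_neg (Finset.ne_of_mem_erase hi), mul_comm]
  constructor
  · intro hd w h1 h2 i hi
    by_contra hne
    apply hd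
    refine Matrix.exists_vecMul_eq_zero_iff.1 ⟨fun i : S => w i, fun h0 => ?_, ?_⟩
    · exact hne (congrFun h0 ⟨i, hi⟩)
    · funext j
      rw [hv]
      by_cases h : (j : ι) = k
      · rw [if_pos h]; exact h2
      · rw [if_neg h]; exact h1 j j.2 h
  · intro hker hd
    obtain ⟨x, hne, hx⟩ := Matrix.exists_vecMul_eq_zero_iff.2 hd
    apply hne
    set y : ι → ZMod 2 := fun i => if h : i ∈ S then x ⟨i, h⟩ else 0 with hy
    have hyx : (fun j : S => y j) = x := by
      funext j
      exact dif_pos j.2
    have h1 : ∀ j : S, (if (j : ι) = k then ∑ i ∈ S, l i * y i else LT m S y j) = 0 := by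
      intro j
      rw [← hv, hyx, hx]
      rfl
    have h2 := hker y (fun j hj hjk => by
      have := h1 ⟨j, hj⟩
      rwa [if_neg hjk] at this) (by
      have := h1 ⟨k, hk⟩
      rwa [if_pos rfl] at this)
    funext j
    have h3 := h2 j j.2
    have h4 : y j = x j := congrFun hyx j
    rw [← h4, h3]
    rfl

/-- **the criterion for `D ≡ 3 mod 4`** -/
theorem sys3_iff {I : Finset ι} {o b : ι} (ho : o ∉ I) (hb : b ∉ I) (hob : o ≠ b)
    {lT n l lb m7 : ι → ZMod 2} {mT m : ι → ι → ZMod 2} {L : ZMod 2}
    (hn : ∑ i ∈ I, n i = 0) (hl : ∑ i ∈ I, l i = 1 + L) (hlb : ∑ i ∈ I, lb i = 1 + L)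
    (lo : lT o = 1) (lbb : lT b = 1) (lI : ∀ i ∈ I, lT i = l i)
    (eij : ∀ i ∈ I, ∀ j ∈ I, i ≠ j → mT i j = m i j)
    (hR : ∀ i ∈ I, ∀ j ∈ I, i ≠ j → m i j + m j i = n i * n j)
    (ebj : ∀ j ∈ I, mT b j = lb j) (ebo : mT b o = 1) (eib : ∀ i ∈ I, mT i b = n i)
    (eob : mT o b = 1) (eoj : ∀ j ∈ I, mT o j = m7 j) (ejo : ∀ j ∈ I, mT j o = m7 j + n j) :
    kp lT mT (insert b (insert o I)) ≠ 0 ↔ Sys3 I L n l lb m7 m := by
  have hbo : b ∉ insert o I := by
    rw [Finset.mem_insert]
    rintro (h | h)
    · exact hob h.symm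
    · exact hb h
  rw [kp_ker lT mT (k := o) (Finset.mem_insert_of_mem (Finset.mem_insert_self _ _))]
  have q1 : ∀ y : ι → ZMod 2, ∑ i ∈ insert b (insert o I), lT i * y i =
      y b + y o + ∑ i ∈ I, l i * y i := by
    intro y
    rw [Finset.sum_insert hbo, Finset.sum_insert ho, lo, lbb,
      Finset.sum_congr rfl (fun i hi => by rw [lI i hi])]
    ring
  have q2 : ∀ y : ι → ZMod 2, LT mT (insert b (insert o I)) y b =
      L * y b + y o + ∑ i ∈ I, n i * y i := by
    intro y
    unfold LT
    rw [Finset.sum_insert hbo, Finset.sum_insert ho, eob, ebo]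
    have h1 : ∑ i ∈ I, (mT i b * y i + mT b i * y b) = ∑ i ∈ I, (n i * y i + lb i * y b) :=
      Finset.sum_congr rfl fun i hi => by rw [eib i hi, ebj i hi]
    rw [h1, Finset.sum_add_distrib, ← Finset.sum_mul, hlb]
    linear_combination two_self (mT b b * y b) + two_self (y b)
  have q3 : ∀ y : ι → ZMod 2, ∀ j ∈ I, LT mT (insert b (insert o I)) y j =
      y b * lb j + y o * m7 j + ∑ i ∈ I.erase j, m i j * y i +
        y j * (n j + m7 j + ∑ i ∈ I.erase j, m i j) := by
    intro y j hj
    unfold LT
    rw [Finset.sum_insert hbo, Finset.sum_insert ho, eoj j hj, ejo j hj, ebj j hj, eib j hj,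
      ← Finset.add_sum_erase I _ hj]
    have h1 : ∑ i ∈ I.erase j, (mT i j * y i + mT j i * y j) =
        ∑ i ∈ I.erase j, (m i j * y i + y j * m i j + (y j * n j) * n i) :=
      Finset.sum_congr rfl fun i hi => by
        have hi' := Finset.mem_of_mem_erase hi
        have hne := Finset.ne_of_mem_erase hi
        rw [eij i hi' j hj hne, eij j hj i hi' hne.symm]
        have h2 := hR i hi' j hj hne
        linear_combination y j * h2 - y j * two_self (m i j)
    rw [h1, Finset.sum_add_distrib, Finset.sum_add_distrib, ← Finset.mul_sum, ← Finset.mul_sum]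
    have h3 : ∑ i ∈ I.erase j, n i = n j := by
      have h4 := Finset.add_sum_erase I n hj
      rw [hn] at h4
      linear_combination h4 - two_self (n j)
    rw [h3]
    linear_combination two_self (mT j j * y j) + y j * sq_self (n j) + y j * two_self (n j)
  constructor
  · intro hk
    -- solutions with `s = 0`
    have h0 : ∀ (z e : ZMod 2) (x : ι → ZMod 2), z + e + ∑ i ∈ I, l i * x i = 0 →
        L * z + e + ∑ i ∈ I, n i * x i = 0 →
        (∀ j ∈ I, z * lb j + e * m7 j + ∑ i ∈ I.erase j, m i j * x i +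
          x j * (n j + m7 j + ∑ i ∈ I.erase j, m i j) = 0) → z = 0 ∧ e = 0 ∧ ∀ i ∈ I, x i = 0 := by
      intro z e x h1 h2 h3
      set y : ι → ZMod 2 := fun i => if i = b then z else if i = o then e else x i with hy
      have yb : y b = z := if_pos rfl
      have yo : y o = e := (if_neg hob).trans (if_pos rfl)
      have yi : ∀ i ∈ I, y i = x i := fun i hi =>
        (if_neg (ne_of_mem_of_not_mem hi hb)).trans (if_neg (ne_of_mem_of_not_mem hi ho))
      have h4 := hk y (fun j hj hjo => by
        rw [Finset.mem_insert, Finset.mem_insert] at hj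
        rcases hj with rfl | rfl | hj
        · rw [q2, yb, yo, Finset.sum_congr rfl (fun i hi => by rw [yi i hi])]
          exact h2
        · exact absurd rfl hjo
        · rw [q3 y j hj, yb, yo, yi j hj, Finset.sum_congr rfl
            (fun i hi => by rw [yi i (Finset.mem_of_mem_erase hi)])]
          exact h3 j hj) (by
        rw [q1, yb, yo, Finset.sum_congr rfl (fun i hi => by rw [yi i hi])]
        exact h1)
      refine ⟨?_, ?_, fun i hi => ?_⟩
      · rw [← yb]; exact h4 b (Finset.mem_insert_self _ _)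
      · rw [← yo]; exact h4 o (Finset.mem_insert_of_mem (Finset.mem_insert_self _ _))
      · rw [← yi i hi]; exact h4 i (Finset.mem_insert_of_mem (Finset.mem_insert_of_mem hi))
    intro s z e x h1 h2 h3
    have hs : ∀ t : ZMod 2, t = 0 ∨ t = 1 := by decide
    rcases hs s with rfl | rfl
    · left
      have h4 := h0 z e x (by rw [h1, mul_zero]) (by rw [← h2]; ring) (fun j hj => by
        rw [← h3 j hj]; ring)
      exact ⟨rfl, h4⟩
    · right
      have h4 := h0 z (e + 1) (fun i => x i + 1) (by
        simp only [mul_add, mul_one]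
        rw [Finset.sum_add_distrib, hl]
        linear_combination h1 + two_self 1 + two_self L) (by
        simp only [mul_add, mul_one]
        rw [Finset.sum_add_distrib, hn]
        linear_combination h2) (fun j hj => by
        simp only [mul_add, mul_one]
        rw [Finset.sum_add_distrib]
        linear_combination h3 j hj + two_self (m7 j) + two_self (∑ i ∈ I.erase j, m i j))
      refine ⟨rfl, h4.1, ?_, fun i hi => ?_⟩
      · linear_combination h4.2.1 - two_self 1
      · have h5 := h4.2.2 i hi
        linear_combination h5 - two_self 1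
  · intro hs y h1 h2
    have h3 := hs 0 (y b) (y o) y (by rw [← q1, h2, mul_zero]) (by
      rw [zero_add, ← q2]
      exact h1 b (Finset.mem_insert_self _ _) hob.symm) (fun j hj => by
      rw [zero_mul, zero_add, ← q3 y j hj]
      exact h1 j (Finset.mem_insert_of_mem (Finset.mem_insert_of_mem hj))
        (ne_of_mem_of_not_mem hj ho))
    rcases h3 with h3 | h3
    · intro i hi
      rw [Finset.mem_insert, Finset.mem_insert] at hi
      rcases hi with rfl | rfl | hi
      · exact h3.2.1
      · exact h3.2.2.1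
      · exact h3.2.2.2 i hi
    · exact absurd h3.1 (by decide)

end Pool.Agent.L0h61.EV
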